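import Mathlib

/-!
# Strict intertwining of polynomials is not transitive
-/

open Polynomial

namespace Pool.Agent.Results.MP_c10dfe_an.NotTransitive

/-- functions on the punctured plane given by Laurent polynomials -/
def LP (f : ℂ → ℂ) : Prop := ∃ (N : ℕ) (F : ℂ[X]), ∀ u : ℂ, u ≠ 0 → u ^ N * f u = F.eval u

lemma LP.const (c : ℂ) : LP fun _ => c := ⟨0, C c, fun u _ => by simp⟩

lemma LP.id : LP fun u => u := ⟨0, X, fun u _ => by simp⟩

lemma LP.inv (c : ℂ) : LP fun u => c / u := ⟨1, C c, fun u hu => by simp; field_simp⟩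

lemma LP.add {f g : ℂ → ℂ} (hf : LP f) (hg : LP g) : LP fun u => f u + g u := by
  obtain ⟨N, F, hF⟩ := hf
  obtain ⟨M, G, hG⟩ := hg
  refine ⟨N + M, X ^ M * F + X ^ N * G, fun u hu => ?_⟩
  simp only [eval_add, eval_mul, eval_pow, eval_X, ← hF u hu, ← hG u hu]
  ring

lemma LP.mul {f g : ℂ → ℂ} (hf : LP f) (hg : LP g) : LP fun u => f u * g u := by
  obtain ⟨N, F, hF⟩ := hf
  obtain ⟨M, G, hG⟩ := hg
  refine ⟨N + M, F * G, fun u hu => ?_⟩
  simp only [eval_mul, ← hF u hu, ← hG u hu]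
  ring

lemma LP.sub {f g : ℂ → ℂ} (hf : LP f) (hg : LP g) : LP fun u => f u - g u := by
  have := hf.add ((LP.const (-1)).mul hg)
  simpa [sub_eq_add_neg] using this

lemma LP.eval {f : ℂ → ℂ} (hf : LP f) (p : ℂ[X]) : LP fun u => p.eval (f u) := by
  induction p using Polynomial.induction_on with
  | C a => simpa using LP.const a
  | add p q hp hq => simpa using hp.add hq
  | monomial n a ih =>
    have := ih.mul hf
    refine (congrArg LP (funext fun u => ?_)).mp this
    simp only [eval_mul, eval_C, eval_pow, eval_X]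
    ring

lemma LP.scale {f : ℂ → ℂ} (hf : LP f) (w : ℂ) (hw : w ≠ 0) : LP fun u => f (w * u) := by
  obtain ⟨N, F, hF⟩ := hf
  refine ⟨N, C (w⁻¹ ^ N) * F.comp (C w * X), fun u hu => ?_⟩
  rw [eval_mul, eval_C, eval_comp, eval_mul, eval_C, eval_X, ← hF (w * u) (mul_ne_zero hw hu),
    mul_pow]
  have : w⁻¹ ^ N * w ^ N = 1 := by rw [← mul_pow, inv_mul_cancel₀ hw, one_pow]
  linear_combination (-(u ^ N * f (w * u))) * this

lemma poly_eq_zero' (F : ℂ[X]) (B : ℂ) (h : ∀ u : ℂ, u ≠ B → F.eval u = 0) : F = 0 := by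
  apply Polynomial.eq_zero_of_infinite_isRoot
  refine Set.Infinite.mono (s := {u : ℂ | u ≠ B}) (fun u hu => h u hu) ?_
  exact (Set.finite_singleton B).infinite_compl

lemma poly_eq_zero (F : ℂ[X]) (h : ∀ u : ℂ, u ≠ 0 → F.eval u = 0) : F = 0 :=
  poly_eq_zero' F 0 h

lemma LP.dichotomy {f g : ℂ → ℂ} (hf : LP f) (hg : LP g) (h : ∀ u, u ≠ 0 → f u * g u = 0) :
    (∀ u, u ≠ 0 → f u = 0) ∨ (∀ u, u ≠ 0 → g u = 0) := by
  obtain ⟨N, F, hF⟩ := hf
  obtain ⟨M, G, hG⟩ := hg
  have h0 : F * G = 0 := by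
    apply poly_eq_zero
    intro u hu
    rw [eval_mul, ← hF u hu, ← hG u hu]
    have := h u hu
    linear_combination u ^ N * u ^ M * this
  rcases mul_eq_zero.1 h0 with h1 | h1
  · left
    intro u hu
    have := hF u hu
    rw [h1, eval_zero] at this
    exact (mul_eq_zero.1 this).resolve_left (pow_ne_zero _ hu)
  · right
    intro u hu
    have := hG u hu
    rw [h1, eval_zero] at this
    exact (mul_eq_zero.1 this).resolve_left (pow_ne_zero _ hu)

lemma LP.unit {f g : ℂ → ℂ} (hf : LP f) (hg : LP g) (κ : ℂ) (hκ : κ ≠ 0)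
    (h : ∀ u, u ≠ 0 → f u * g u = κ) :
    ∃ (c : ℂ) (k : ℤ), c ≠ 0 ∧ ∀ u, u ≠ 0 → f u = c * u ^ k := by
  obtain ⟨N, F, hF⟩ := hf
  obtain ⟨M, G, hG⟩ := hg
  have h0 : F * G - C κ * X ^ (N + M) = 0 := by
    apply poly_eq_zero
    intro u hu
    rw [eval_sub, eval_mul, eval_mul, eval_C, eval_pow, eval_X, ← hF u hu, ← hG u hu]
    have := h u hu
    linear_combination u ^ N * u ^ M * this
  have h1 : F ∣ X ^ (N + M) := by
    refine ⟨C κ⁻¹ * G, ?_⟩
    have h2 : C κ⁻¹ * C κ = (1 : ℂ[X]) := by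
      rw [← C_mul, inv_mul_cancel₀ hκ, C_1]
    linear_combination (-C κ⁻¹) * h0 - X ^ (N + M) * h2
  obtain ⟨i, -, hi⟩ := (dvd_prime_pow (prime_X (R := ℂ)) _).1 h1
  obtain ⟨v, hv⟩ := hi.symm
  obtain ⟨c, hc, hcv⟩ := Polynomial.isUnit_iff.1 v.isUnit
  refine ⟨c, (i : ℤ) - N, hc.ne_zero, fun u hu => ?_⟩
  have h3 := hF u hu
  rw [← hv, ← hcv, eval_mul, eval_pow, eval_X, eval_C] at h3
  rw [zpow_sub₀ hu, zpow_natCast, zpow_natCast]
  field_simp
  linear_combination h3

/-- the primitive cube root of unity -/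
lemma exists_omega : ∃ w : ℂ, w ^ 2 + w + 1 = 0 := by
  have := IsAlgClosed.exists_root (X ^ 2 + X + 1 : ℂ[X]) (by
    have : (X ^ 2 + X + 1 : ℂ[X]).degree = 2 := by compute_degree!
    rw [this]; norm_num)
  obtain ⟨w, hw⟩ := this
  exact ⟨w, by simpa using hw⟩

/-- the expansion of a polynomial over `ℂ[Φ]` for a cubic `Φ` -/
lemma expansion (A B : ℂ) (p : ℂ[X]) : ∃ E0 E1 E2 : ℂ[X],
    p = E0.comp (X ^ 3 + C A * X + C B) + X * E1.comp (X ^ 3 + C A * X + C B) +
      X ^ 2 * E2.comp (X ^ 3 + C A * X + C B) := by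
  induction p using Polynomial.induction_on with
  | C a => exact ⟨C a, 0, 0, by simp⟩
  | add p q hp hq =>
    obtain ⟨E0, E1, E2, h⟩ := hp
    obtain ⟨F0, F1, F2, h'⟩ := hq
    refine ⟨E0 + F0, E1 + F1, E2 + F2, ?_⟩
    rw [add_comp, add_comp, add_comp]
    linear_combination h + h'
  | monomial n a ih =>
    obtain ⟨E0, E1, E2, h⟩ := ih
    refine ⟨(X - C B) * E2, E0 - C A * E2, E1, ?_⟩
    rw [mul_comp, sub_comp, sub_comp, mul_comp, X_comp, C_comp, C_comp]
    linear_combination X * h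

lemma surj (β x : ℂ) (hx : x ≠ 0) : ∃ u : ℂ, u ≠ 0 ∧ u + β / u = x := by
  by_cases hβ : β = 0
  · exact ⟨x, hx, by simp [hβ]⟩
  · obtain ⟨u, hu⟩ := IsAlgClosed.exists_root (X ^ 2 - C x * X + C β : ℂ[X]) (by
      have : (X ^ 2 - C x * X + C β : ℂ[X]).degree = 2 := by compute_degree!
      rw [this]; norm_num)
    simp only [IsRoot.def, eval_add, eval_sub, eval_mul, eval_pow, eval_X, eval_C] at hu
    have hu0 : u ≠ 0 := by
      rintro rfl
      simp at hu
      exact hβ hu
    refine ⟨u, hu0, ?_⟩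
    field_simp
    linear_combination hu

/-- the differential equation of Chebyshev type -/
lemma ode (p : ℂ[X]) (γ B c d : ℂ) (m : ℕ)
    (h : ∀ v : ℂ, v ≠ 0 → p.eval (v + γ / v + B) = c * v ^ (m + 1) + d * (v⁻¹) ^ (m + 1)) :
    ((X - C B) ^ 2 - C (4 * γ)) * derivative p ^ 2 =
      C (((m : ℂ) + 1) ^ 2) * (p ^ 2 - C (4 * (c * d))) := by
  rw [← sub_eq_zero]
  apply poly_eq_zero' _ B
  intro x hx
  obtain ⟨v, hv, hvx⟩ := surj γ (x - B) (sub_ne_zero.2 hx)
  have hx' : x = v + γ / v + B := by rw [hvx]; ring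
  have d1 : HasDerivAt (fun v : ℂ => v + γ / v + B) (1 + γ * (-(v ^ 2)⁻¹)) v := by
    have h1 := (hasDerivAt_inv hv).const_mul γ
    have h2 := ((hasDerivAt_id v).add h1).add_const B
    simpa [div_eq_mul_inv] using h2
  have d2 : HasDerivAt (fun v : ℂ => p.eval (v + γ / v + B))
      ((derivative p).eval (v + γ / v + B) * (1 + γ * (-(v ^ 2)⁻¹))) v :=
    HasDerivAt.comp (h₂ := fun y => p.eval y) v (p.hasDerivAt (v + γ / v + B)) d1
  have d3 : HasDerivAt (fun v : ℂ => c * v ^ (m + 1) + d * (v⁻¹) ^ (m + 1))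
      (c * (((m + 1 : ℕ) : ℂ) * v ^ m) + d * (((m + 1 : ℕ) : ℂ) * (v⁻¹) ^ m * (-(v ^ 2)⁻¹))) v := by
    have h1 := (hasDerivAt_pow (m + 1) v).const_mul c
    have h2 := (((hasDerivAt_inv hv).fun_pow (m + 1))).const_mul d
    exact (h1.fun_add h2).congr_deriv (by simp)
  have heq : (fun v : ℂ => p.eval (v + γ / v + B)) =ᶠ[nhds v]
      fun v : ℂ => c * v ^ (m + 1) + d * (v⁻¹) ^ (m + 1) := by
    filter_upwards [isOpen_ne.mem_nhds hv] with v hv
    exact h v hv
  have key := (d3.congr_of_eventuallyEq heq).unique d2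
  have hval := h v hv
  rw [← hx'] at key hval
  have hvv : v ^ (m + 1) * (v⁻¹) ^ (m + 1) = 1 := by
    rw [← mul_pow, mul_inv_cancel₀ hv, one_pow]
  have k2 : (derivative p).eval x * (v - γ / v) =
      ((m : ℂ) + 1) * (c * v ^ (m + 1) - d * (v⁻¹) ^ (m + 1)) := by
    have e1 : (derivative p).eval x * (v - γ / v) =
        v * ((derivative p).eval x * (1 + γ * (-(v ^ 2)⁻¹))) := by
      field_simp
      ring
    rw [e1, ← key]
    have hv2 : v * (v ^ 2)⁻¹ = v⁻¹ := by field_simp
    push_cast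
    rw [pow_succ (v⁻¹) m, pow_succ v m]
    linear_combination (-(d * ((m : ℂ) + 1) * v⁻¹ ^ m)) * hv2
  have k3 : (x - B) ^ 2 - 4 * γ = (v - γ / v) ^ 2 := by
    rw [hx']
    field_simp
    ring
  simp only [eval_sub, eval_mul, eval_pow, eval_X, eval_C]
  rw [k3, hval]
  have k4 : (v - γ / v) ^ 2 * (derivative p).eval x ^ 2 =
      (((m : ℂ) + 1) * (c * v ^ (m + 1) - d * (v⁻¹) ^ (m + 1))) ^ 2 := by
    rw [← k2]; ring
  rw [k4]
  linear_combination (4 * ((m : ℂ) + 1) ^ 2 * (-c * d)) * hvv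

/-- the cubic `X³ - 3βX + B` -/
noncomputable def Phi (β B : ℂ) : ℂ[X] := X ^ 3 + C (-(3 * β)) * X + C B

lemma Phi_eval (β B u : ℂ) (hu : u ≠ 0) :
    (Phi β B).eval (u + β / u) = u ^ 3 + β ^ 3 / u ^ 3 + B := by
  simp only [Phi, eval_add, eval_mul, eval_pow, eval_X, eval_C]
  field_simp
  ring

lemma Phi_degree (β B : ℂ) : (Phi β B).natDegree = 3 := by
  unfold Phi
  compute_degree!

lemma comp_zero (β B : ℂ) (E : ℂ[X])
    (h : ∀ u : ℂ, u ≠ 0 → E.eval ((Phi β B).eval (u + β / u)) = 0) : E = 0 := by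
  have h1 : E.comp (Phi β B) = 0 := by
    apply poly_eq_zero
    intro x hx
    obtain ⟨u, hu, rfl⟩ := surj β x hx
    rw [eval_comp]
    exact h u hu
  rcases comp_eq_zero_iff.1 h1 with h2 | h2
  · exact h2
  · have := congrArg natDegree h2.2
    rw [Phi_degree, natDegree_C] at this
    omega

lemma not_const_diff (β v : ℂ) (hv0 : v ≠ 0) (hv : v ≠ 1) :
    ¬ ∀ u : ℂ, u ≠ 0 → (u + β / u) - (v * u + β / (v * u)) = 0 := by
  intro h
  have h1 := h 1 one_ne_zero
  have h2 := h 2 two_ne_zero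
  have h3 : (1 - v) + β * (1 - v⁻¹) = 0 := by
    rw [div_one, mul_one] at h1
    rw [div_eq_mul_inv] at h1
    linear_combination h1
  have h4 : 4 * (1 - v) + β * (1 - v⁻¹) = 0 := by
    have e : β / (v * 2) = β * v⁻¹ / 2 := by field_simp
    rw [e] at h2
    linear_combination 2 * h2
  have h5 : 3 * (1 - v) = 0 := by linear_combination h4 - h3
  have h6 : 1 - v = 0 := by
    rcases mul_eq_zero.1 h5 with h | h
    · norm_num at h
    · exact h
  exact hv (sub_eq_zero.1 h6).symm

/-- invariance under the rotation `u ↦ w u` gives a factorization through `Φ` -/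
lemma descend (β B w : ℂ) (hw : w ^ 2 + w + 1 = 0) (p : ℂ[X])
    (h : ∀ u : ℂ, u ≠ 0 → p.eval (u + β / u) = p.eval (w * u + β / (w * u))) :
    ∃ E : ℂ[X], p = E.comp (Phi β B) := by
  have hw3 : w ^ 3 = 1 := by linear_combination (w - 1) * hw
  have hw0 : w ≠ 0 := by
    rintro rfl
    simp at hw
  have hw1 : w ≠ 1 := by
    rintro rfl
    norm_num at hw
  obtain ⟨E0, E1, E2, hE⟩ := expansion (-(3 * β)) B p
  change p = E0.comp (Phi β B) + X * E1.comp (Phi β B) + X ^ 2 * E2.comp (Phi β B) at hE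
  have hW : ∀ u : ℂ, u ≠ 0 → (Phi β B).eval (w * u + β / (w * u)) =
      (Phi β B).eval (u + β / u) := by
    intro u hu
    rw [Phi_eval _ _ _ hu, Phi_eval _ _ _ (mul_ne_zero hw0 hu), mul_pow, hw3, one_mul]
  have ev : ∀ x, p.eval x = E0.eval ((Phi β B).eval x) + x * E1.eval ((Phi β B).eval x) +
      x ^ 2 * E2.eval ((Phi β B).eval x) := by
    intro x
    conv_lhs => rw [hE]
    simp only [eval_add, eval_mul, eval_comp, eval_X, eval_pow]
  have lx : LP fun u => u + β / u := LP.id.add (LP.inv β)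
  have ly : LP fun u => w * u + β / (w * u) := lx.scale w hw0
  have lz : LP fun u => w * (w * u) + β / (w * (w * u)) := ly.scale w hw0
  have l1 : LP fun u => E1.eval ((Phi β B).eval (u + β / u)) := (lx.eval _).eval _
  have l2 : LP fun u => E2.eval ((Phi β B).eval (u + β / u)) := (lx.eval _).eval _
  -- first relation
  have r1 : ∀ u : ℂ, u ≠ 0 → E1.eval ((Phi β B).eval (u + β / u)) +
      ((u + β / u) + (w * u + β / (w * u))) * E2.eval ((Phi β B).eval (u + β / u)) = 0 := by
    have hd := LP.dichotomy (lx.sub ly) (l1.add ((lx.add ly).mul l2)) (by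
      intro u hu
      have h1 := h u hu
      rw [ev, ev, hW u hu] at h1
      linear_combination h1)
    rcases hd with hd | hd
    · exact absurd hd (not_const_diff β w hw0 hw1)
    · exact hd
  have r2 : ∀ u : ℂ, u ≠ 0 → E1.eval ((Phi β B).eval (u + β / u)) +
      ((w * u + β / (w * u)) + (w * (w * u) + β / (w * (w * u)))) *
        E2.eval ((Phi β B).eval (u + β / u)) = 0 := by
    intro u hu
    have := r1 (w * u) (mul_ne_zero hw0 hu)
    rwa [hW u hu] at this
  have r3 : ∀ u : ℂ, u ≠ 0 → E2.eval ((Phi β B).eval (u + β / u)) = 0 := by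
    have hd := LP.dichotomy (lx.sub lz) l2 (by
      intro u hu
      have h1 := r1 u hu
      have h2 := r2 u hu
      linear_combination h1 - h2)
    rcases hd with hd | hd
    · exfalso
      refine not_const_diff β (w * w) (mul_ne_zero hw0 hw0) ?_ ?_
      · intro h1
        apply hw1
        have : w = w ^ 3 * w := by rw [hw3, one_mul]
        rw [this]
        linear_combination (w * w + 1) * h1
      · intro u hu
        have := hd u hu
        rwa [mul_assoc]
    · exact hd
  have r4 : ∀ u : ℂ, u ≠ 0 → E1.eval ((Phi β B).eval (u + β / u)) = 0 := by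
    intro u hu
    have h1 := r1 u hu
    rw [r3 u hu, mul_zero, add_zero] at h1
    exact h1
  refine ⟨E0, ?_⟩
  rw [hE, comp_zero β B E1 r4, comp_zero β B E2 r3]
  simp

/-- the only linear-size semiconjugacies onto `X³ + aX` -/
lemma main (a β B : ℂ) (ha : a ≠ 0) (ha9 : a ^ 2 ≠ 9) (n : ℕ) : ∀ p : ℂ[X], p.natDegree ≤ n →
    p.natDegree ≠ 0 → p.comp (Phi β B) = (X ^ 3 + C a * X).comp p →
    ∃ s : ℂ[X], s.natDegree = 1 ∧ s.comp (Phi β B) = (X ^ 3 + C a * X).comp s := by
  induction n with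
  | zero => intro p h1 h2; exact absurd (Nat.le_zero.1 h1) h2
  | succ n ih =>
  intro p hpn hp0 hp
  obtain ⟨w, hw⟩ := exists_omega
  have hw3 : w ^ 3 = 1 := by linear_combination (w - 1) * hw
  have hw0 : w ≠ 0 := by
    rintro rfl
    simp at hw
  have hW : ∀ u : ℂ, u ≠ 0 → (Phi β B).eval (w * u + β / (w * u)) =
      (Phi β B).eval (u + β / u) := by
    intro u hu
    rw [Phi_eval _ _ _ hu, Phi_eval _ _ _ (mul_ne_zero hw0 hu), mul_pow, hw3, one_mul]
  have hev : ∀ x, p.eval ((Phi β B).eval x) = p.eval x ^ 3 + a * p.eval x := by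
    intro x
    have := congrArg (fun q => q.eval x) hp
    simpa [eval_comp] using this
  set h : ℂ → ℂ := fun u => p.eval (u + β / u) with hh
  have lh : LP h := (LP.id.add (LP.inv β)).eval p
  have lh2 : LP fun u => h (w * u) := lh.scale w hw0
  have lh3 : LP fun u => h (w * (w * u)) := lh2.scale w hw0
  have hcube : ∀ u, h (w * (w * (w * u))) = h u := by
    intro u
    congr 1
    linear_combination u * hw3
  have hprod : ∀ u : ℂ, u ≠ 0 → (h u - h (w * u)) *
      (h u * h u + h u * h (w * u) + h (w * u) * h (w * u) + a) = 0 := by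
    intro u hu
    have h1 := hev (u + β / u)
    have h2 := hev (w * u + β / (w * u))
    rw [hW u hu, h1] at h2
    simp only [hh]
    linear_combination h2
  rcases LP.dichotomy (lh.sub lh2) (((lh.mul lh).add (lh.mul lh2)).add (lh2.mul lh2) |>.add
      (LP.const a)) hprod with hc | hc
  · -- descend
    obtain ⟨E, hE⟩ := descend β B w hw p (fun u hu => sub_eq_zero.1 (hc u hu))
    have hdeg : p.natDegree = E.natDegree * 3 := by
      rw [hE, natDegree_comp, Phi_degree]
    refine ih E (by omega) (by omega) ?_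
    have h1 : (E.comp (Phi β B) - (X ^ 3 + C a * X).comp E).comp (Phi β B) = 0 := by
      rw [sub_comp, comp_assoc (X ^ 3 + C a * X), ← hE, hp, sub_self]
    rcases comp_eq_zero_iff.1 h1 with h2 | h2
    · exact sub_eq_zero.1 h2
    · have := congrArg natDegree h2.2
      rw [Phi_degree, natDegree_C] at this
      omega
  · -- the second case
    by_cases hinv : ∀ u : ℂ, u ≠ 0 → h u - h (w * u) = 0
    · exfalso
      -- then `3 h² + a = 0`, so `h` is constant
      have h1 : ∀ u : ℂ, u ≠ 0 → h u * h u = -a / 3 := by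
        intro u hu
        have e1 := hc u hu
        have e2 := hinv u hu
        have e3 : h (w * u) = h u := by linear_combination -e2
        rw [e3] at e1
        linear_combination e1 / 3
      have h2 : p * p - C (-a / 3) = 0 := by
        apply poly_eq_zero
        intro x hx
        obtain ⟨u, hu, rfl⟩ := surj β x hx
        rw [eval_sub, eval_mul, eval_C]
        linear_combination h1 u hu
      have h3 : p * p = C (-a / 3) := by linear_combination h2
      have h4 := congrArg natDegree h3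
      have hpne : p ≠ 0 := by
        rintro rfl
        simp at hp0
      rw [natDegree_mul hpne hpne, natDegree_C] at h4
      omega
    have h23 : ∀ u : ℂ, u ≠ 0 → h (w * u) * h (w * u) + h (w * u) * h (w * (w * u)) +
        h (w * (w * u)) * h (w * (w * u)) + a = 0 := fun u hu => hc (w * u) (mul_ne_zero hw0 hu)
    have h31 : ∀ u : ℂ, u ≠ 0 → h (w * (w * u)) * h (w * (w * u)) + h (w * (w * u)) * h u +
        h u * h u + a = 0 := by
      intro u hu
      have := hc (w * (w * u)) (mul_ne_zero hw0 (mul_ne_zero hw0 hu))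
      rwa [hcube] at this
    have hsum : ∀ u : ℂ, u ≠ 0 → h u + h (w * u) + h (w * (w * u)) = 0 := by
      rcases LP.dichotomy (lh.sub lh3) ((lh.add lh2).add lh3) (by
        intro u hu
        have e1 := hc u hu
        have e2 := h23 u hu
        linear_combination e1 - e2) with hd | hd
      · exfalso
        apply hinv
        intro u hu
        have := hd (w * u) (mul_ne_zero hw0 hu)
        rw [hcube] at this
        linear_combination -this
      · exact hd
    have lp1 : LP fun u => h u + w ^ 2 * h (w * u) + w * h (w * (w * u)) :=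
      (lh.add ((LP.const _).mul lh2)).add ((LP.const _).mul lh3)
    have lq1 : LP fun u => h u + w * h (w * u) + w ^ 2 * h (w * (w * u)) :=
      (lh.add ((LP.const _).mul lh2)).add ((LP.const _).mul lh3)
    have hpq : ∀ u : ℂ, u ≠ 0 → (h u + w ^ 2 * h (w * u) + w * h (w * (w * u))) *
        (h u + w * h (w * u) + w ^ 2 * h (w * (w * u))) = -3 * a := by
      intro u hu
      have e1 := hc u hu
      have e2 := h23 u hu
      have e3 := h31 u hu
      have e4 := hsum u hu
      set x := h u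
      set y := h (w * u)
      set z := h (w * (w * u))
      have e5 : w ^ 2 = -w - 1 := by linear_combination hw
      have e6 : (x + w ^ 2 * y + w * z) * (x + w * y + w ^ 2 * z) =
          x * x + y * y + z * z - x * y - y * z - z * x := by
        rw [e5]
        linear_combination (-y * y - z * z + 2 * y * z) * hw
      rw [e6]
      linear_combination e1 + e2 + e3 - (x + y + z) * e4
    obtain ⟨c0, k, hc0, hk⟩ := lp1.unit lq1 (-3 * a) (mul_ne_zero (by norm_num) ha) hpq
    -- `h u = c u^k + d u^(-k)`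
    have hform : ∀ u : ℂ, u ≠ 0 → h u = (c0 / 3) * u ^ k + (-a / c0) * (u⁻¹) ^ k := by
      intro u hu
      have e1 := hpq u hu
      have e4 := hsum u hu
      have e7 := hk u hu
      have huk : u ^ k ≠ 0 := zpow_ne_zero k hu
      have e8 : (h u + w * h (w * u) + w ^ 2 * h (w * (w * u))) = -3 * a / (c0 * u ^ k) := by
        rw [eq_div_iff (mul_ne_zero hc0 huk), ← e7]
        linear_combination e1
      have e9 : 3 * h u = (h u + w ^ 2 * h (w * u) + w * h (w * (w * u))) +
          (h u + w * h (w * u) + w ^ 2 * h (w * (w * u))) := by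
        linear_combination e4 - (h (w * u) + h (w * (w * u))) * hw
      rw [e7, e8] at e9
      have e10 : h u = (c0 * u ^ k + -3 * a / (c0 * u ^ k)) / 3 := by
        linear_combination e9 / 3
      rw [e10, inv_zpow]
      field_simp
    have hk0 : k ≠ 0 := by
      rintro rfl
      have h2 : p - C (c0 / 3 + -a / c0) = 0 := by
        apply poly_eq_zero
        intro x hx
        obtain ⟨u, hu, rfl⟩ := surj β x hx
        rw [eval_sub, eval_C]
        have := hform u hu
        simp only [zpow_zero, mul_one] at this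
        linear_combination this
      rw [sub_eq_zero.1 h2, natDegree_C] at hp0
      exact hp0 rfl
    obtain ⟨m, c, d, hcd, hformN⟩ : ∃ (m : ℕ) (c d : ℂ), c * d = -a / 3 ∧
        ∀ u : ℂ, u ≠ 0 → h u = c * u ^ (m + 1) + d * (u⁻¹) ^ (m + 1) := by
      rcases lt_or_gt_of_ne hk0 with hneg | hpos
      · refine ⟨(-k).toNat - 1, -a / c0, c0 / 3, by field_simp, fun u hu => ?_⟩
        rw [hform u hu]
        have e1 : (((-k).toNat - 1 + 1 : ℕ) : ℤ) = -k := by omega
        have e2 : u ^ ((-k).toNat - 1 + 1) = (u⁻¹) ^ k := by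
          rw [← zpow_natCast, e1, zpow_neg, inv_zpow]
        have e3 : (u⁻¹) ^ ((-k).toNat - 1 + 1) = u ^ k := by
          rw [← zpow_natCast, e1, zpow_neg, inv_zpow, inv_inv]
        rw [e2, e3]
        ring
      · refine ⟨k.toNat - 1, c0 / 3, -a / c0, by field_simp, fun u hu => ?_⟩
        rw [hform u hu]
        have e1 : ((k.toNat - 1 + 1 : ℕ) : ℤ) = k := by omega
        have e2 : u ^ (k.toNat - 1 + 1) = u ^ k := by
          rw [← zpow_natCast, e1]
        have e3 : (u⁻¹) ^ (k.toNat - 1 + 1) = (u⁻¹) ^ k := by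
          rw [← zpow_natCast, e1]
        rw [e2, e3]
    -- the two differential equations
    have o1 := ode p β 0 c d m (by
      intro v hv
      rw [add_zero]
      exact hformN v hv)
    have o2 := ode p (β ^ 3) B (c ^ 3) (d ^ 3) m (by
      intro v hv
      obtain ⟨u, hu⟩ := IsAlgClosed.exists_pow_nat_eq v (n := 3) (by norm_num)
      have hu0 : u ≠ 0 := by
        rintro rfl
        apply hv
        rw [← hu]
        norm_num
      have e1 := hev (u + β / u)
      rw [Phi_eval _ _ _ hu0, hu] at e1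
      rw [e1]
      have e2 := hformN u hu0
      simp only [hh] at e2
      rw [e2, ← hu]
      have e3 : u ^ (m + 1) * (u⁻¹) ^ (m + 1) = 1 := by
        rw [← mul_pow, mul_inv_cancel₀ hu0, one_pow]
      have e4 : (u ^ 3) ^ (m + 1) = (u ^ (m + 1)) ^ 3 := by ring
      have e5 : ((u ^ 3)⁻¹) ^ (m + 1) = ((u⁻¹) ^ (m + 1)) ^ 3 := by
        rw [← inv_pow]
        ring
      rw [e4, e5]
      set X1 := u ^ (m + 1)
      set Y1 := (u⁻¹) ^ (m + 1)
      linear_combination (3 * c ^ 2 * d * X1 + 3 * c * d ^ 2 * Y1) * e3 +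
        (3 * c * X1 + 3 * d * Y1) * hcd)
    have key : (C (2 * B) * X + C (-B ^ 2 - 4 * β + 4 * β ^ 3)) * derivative p ^ 2 =
        C (((m : ℂ) + 1) ^ 2 * (-4 * (c * d) + 4 * (c * d) ^ 3)) := by
      have e1 : (C (2 * B) * X + C (-B ^ 2 - 4 * β + 4 * β ^ 3) : ℂ[X]) =
          ((X - C 0) ^ 2 - C (4 * β)) - ((X - C B) ^ 2 - C (4 * β ^ 3)) := by
        simp only [C_add, C_sub, C_mul, C_neg, C_pow, C_0, map_ofNat]
        ring
      have e2 : (C (((m : ℂ) + 1) ^ 2 * (-4 * (c * d) + 4 * (c * d) ^ 3)) : ℂ[X]) =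
          C (((m : ℂ) + 1) ^ 2) * (p ^ 2 - C (4 * (c * d))) -
          C (((m : ℂ) + 1) ^ 2) * (p ^ 2 - C (4 * (c ^ 3 * d ^ 3))) := by
        rw [← mul_sub, C_mul]
        congr 1
        simp only [C_add, C_mul, C_neg, C_pow, map_ofNat]
        ring
      rw [e1, e2, sub_mul, o1, o2]
    by_cases hdeg : p.natDegree = 1
    · exact ⟨p, hdeg, hp⟩
    exfalso
    have hdp : (derivative p).natDegree = p.natDegree - 1 := 
      natDegree_eq_of_degree_eq_some (degree_derivative hp0)
    have hdp0 : derivative p ≠ 0 := by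
      intro h0
      rw [h0, natDegree_zero] at hdp
      omega
    have hL : (C (2 * B) * X + C (-B ^ 2 - 4 * β + 4 * β ^ 3) : ℂ[X]) = 0 := by
      by_contra hne
      have := congrArg natDegree key
      rw [natDegree_mul hne (pow_ne_zero 2 hdp0), natDegree_pow, hdp, natDegree_C] at this
      omega
    rw [hL, zero_mul] at key
    have k1 := C_eq_zero.1 key.symm
    have hm : ((m : ℂ) + 1) ^ 2 ≠ 0 := by
      have : ((m : ℂ) + 1) ≠ 0 := by exact_mod_cast Nat.succ_ne_zero m
      exact pow_ne_zero 2 this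
    have k2 := (mul_eq_zero.1 k1).resolve_left hm
    rw [hcd] at k2
    have k3 : a * (9 - a ^ 2) = 0 := by linear_combination (27 / 4 : ℂ) * k2
    rcases mul_eq_zero.1 k3 with k4 | k4
    · exact ha k4
    · exact ha9 (by linear_combination -k4)

/-! ### Strict intertwining -/

/-- `A ≥ B`: there is a non-constant polynomial `π` with `π ∘ A = B ∘ π` -/
def SemiConj (A B : ℂ[X]) : Prop := ∃ p : ℂ[X], p.natDegree ≠ 0 ∧ p.comp A = B.comp p

/-- `P` and `Q` are strictly intertwined: some polynomial `Φ` (of degree at least `2`) satisfies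
`Φ ≥ P` and `Φ ≥ Q` -/
def StrictlyIntertwined (P Q : ℂ[X]) : Prop :=
  ∃ F : ℂ[X], 2 ≤ F.natDegree ∧ SemiConj F P ∧ SemiConj F Q

/-- normal form of a cubic source -/
lemma normalize (F : ℂ[X]) (hF : F.natDegree = 3) : ∃ (β B r s : ℂ), r ≠ 0 ∧
    F.comp (C r * X + C s) = (C r * X + C s).comp (Phi β B) := by
  have hlead : F.coeff 3 ≠ 0 := by
    have : F ≠ 0 := by
      rintro rfl
      simp at hF
    rw [← hF]
    exact leadingCoeff_ne_zero.2 this
  obtain ⟨t, ht⟩ := IsAlgClosed.exists_pow_nat_eq (F.coeff 3) (n := 2) (by norm_num)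
  have ht0 : t ≠ 0 := by
    rintro rfl
    apply hlead
    rw [← ht]
    norm_num
  have hFe : F = C (F.coeff 3) * X ^ 3 + C (F.coeff 2) * X ^ 2 + C (F.coeff 1) * X +
      C (F.coeff 0) := by
    conv_lhs => rw [F.as_sum_range_C_mul_X_pow, hF]
    simp only [Finset.sum_range_succ, Finset.sum_range_zero, pow_zero, mul_one, pow_one, zero_add]
    ring
  set b3 := F.coeff 3
  set b2 := F.coeff 2
  set b1 := F.coeff 1
  set b0 := F.coeff 0
  have hb3 : b3 ≠ 0 := hlead
  refine ⟨-(b1 - b2 ^ 2 / (3 * b3)) / 3,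
    (b3 * (-b2 / (3 * b3)) ^ 3 + b2 * (-b2 / (3 * b3)) ^ 2 + b1 * (-b2 / (3 * b3)) + b0 -
      (-b2 / (3 * b3))) * t, t⁻¹, -b2 / (3 * b3), inv_ne_zero ht0, ?_⟩
  rw [hFe]
  apply Polynomial.funext
  intro x
  simp only [Phi, eval_comp, eval_add, eval_mul, eval_pow, eval_X, eval_C]
  rw [← ht]
  field_simp
  ring

lemma affine_eq (a β B : ℂ) (s : ℂ[X]) (hs : s.natDegree = 1)
    (h : s.comp (Phi β B) = (X ^ 3 + C a * X).comp s) : a = -(3 * β) := by
  have hlead : s.coeff 1 ≠ 0 := by
    have : s ≠ 0 := by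
      rintro rfl
      simp at hs
    rw [← hs]
    exact leadingCoeff_ne_zero.2 this
  have hse : s = C (s.coeff 1) * X + C (s.coeff 0) := by
    conv_lhs => rw [s.as_sum_range_C_mul_X_pow, hs]
    simp only [Finset.sum_range_succ, Finset.sum_range_zero, pow_zero, mul_one, pow_one, zero_add]
    ring
  set s1 := s.coeff 1
  set s0 := s.coeff 0
  have hev : ∀ x : ℂ, s1 * (x ^ 3 + -(3 * β) * x + B) + s0 =
      (s1 * x + s0) ^ 3 + a * (s1 * x + s0) := by
    intro x
    have := congrArg (fun q => q.eval x) h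
    rw [hse] at this
    simpa [Phi, eval_comp] using this
  have h0 := hev 0
  have h1 := hev 1
  have h2 := hev (-1)
  have h3 := hev 2
  -- coefficient comparison
  have c2 : s1 ^ 2 * s0 = 0 := by linear_combination (h0 * 2 - h1 - h2) / 6
  have s00 : s0 = 0 := (mul_eq_zero.1 c2).resolve_left (pow_ne_zero 2 hlead)
  rw [s00] at h0 h1 h2 h3
  have c3 : s1 ^ 2 = 1 := by
    have : s1 * (s1 ^ 2 - 1) = 0 := by linear_combination -(h3 - 2 * h1 + h0) / 6
    rcases mul_eq_zero.1 this with h | h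
    · exact absurd h hlead
    · linear_combination h
  have c1 : s1 * (a + 3 * β) = 0 := by
    linear_combination h0 - h1 + (-s1) * c3
  rcases mul_eq_zero.1 c1 with h | h
  · exact absurd h hlead
  · linear_combination h

lemma degree_source (a : ℂ) (F : ℂ[X]) (h : SemiConj F (X ^ 3 + C a * X)) : F.natDegree = 3 := by
  obtain ⟨p, hp0, hp⟩ := h
  have h3 : (X ^ 3 + C a * X : ℂ[X]).natDegree = 3 := by compute_degree!
  have := congrArg natDegree hp
  rw [natDegree_comp, natDegree_comp, h3, mul_comm] at this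
  exact Nat.eq_of_mul_eq_mul_right (Nat.pos_of_ne_zero hp0) this

lemma to_normal (a β B r s : ℂ) (hr : r ≠ 0) (F : ℂ[X]) (h : SemiConj F (X ^ 3 + C a * X))
    (hF : F.comp (C r * X + C s) = (C r * X + C s).comp (Phi β B)) (ha : a ≠ 0)
    (ha9 : a ^ 2 ≠ 9) : a = -(3 * β) := by
  obtain ⟨p, hp0, hp⟩ := h
  have hl : (C r * X + C s : ℂ[X]).natDegree = 1 := natDegree_linear hr
  obtain ⟨q, hq, hq2⟩ := main a β B ha ha9 (p.comp (C r * X + C s)).natDegree
    (p.comp (C r * X + C s)) le_rfl (by rw [natDegree_comp, hl, mul_one]; exact hp0) (by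
      rw [comp_assoc, ← hF, ← comp_assoc, hp, comp_assoc])
  exact affine_eq a β B q hq hq2

/-- Strict intertwining of cubic polynomials is not transitive: for every complex `a` different
from `0` and `±3` the polynomial `X (X + a)²` is strictly intertwined with `X³ + aX` and with
`X³ - aX`, but these two are not strictly intertwined. -/
theorem result (a : ℂ) (ha : a ≠ 0) (ha9 : a ^ 2 ≠ 9) :
    ((X ^ 3 + C a * X : ℂ[X]).natDegree = 3 ∧ (X * (X + C a) ^ 2 : ℂ[X]).natDegree = 3 ∧
      (X ^ 3 - C a * X : ℂ[X]).natDegree = 3) ∧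
    StrictlyIntertwined (X ^ 3 + C a * X) (X * (X + C a) ^ 2) ∧
    StrictlyIntertwined (X * (X + C a) ^ 2) (X ^ 3 - C a * X) ∧
    ¬ StrictlyIntertwined (X ^ 3 + C a * X) (X ^ 3 - C a * X) := by
  have d1 : (X ^ 3 + C a * X : ℂ[X]).natDegree = 3 := by compute_degree!
  have d2 : (X ^ 3 - C a * X : ℂ[X]).natDegree = 3 := by compute_degree!
  have d3 : (X * (X + C a) ^ 2 : ℂ[X]).natDegree = 3 := by
    have : (X * (X + C a) ^ 2 : ℂ[X]) = X ^ 3 + C (2 * a) * X ^ 2 + C (a ^ 2) * X := by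
      simp only [C_mul, C_pow, map_ofNat]
      ring
    rw [this]
    compute_degree!
  have refl : ∀ P : ℂ[X], SemiConj P P := fun P => ⟨X, by simp, by simp⟩
  have s1 : SemiConj (X ^ 3 + C a * X) (X * (X + C a) ^ 2) := by
    refine ⟨X ^ 2, by simp, ?_⟩
    simp only [mul_comp, pow_comp, add_comp, X_comp, C_comp]
    ring
  have s2 : SemiConj (X ^ 3 - C a * X) (X * (X + C a) ^ 2) := by
    refine ⟨-X ^ 2, by simp, ?_⟩
    simp only [mul_comp, pow_comp, add_comp, X_comp, C_comp, neg_comp]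
    ring
  refine ⟨⟨d1, d3, d2⟩, ⟨_, by rw [d1]; norm_num, refl _, s1⟩, ⟨_, by rw [d2]; norm_num, s2, refl _⟩,
    ?_⟩
  rintro ⟨F, -, hP, hQ⟩
  have hF := degree_source a F hP
  obtain ⟨β, B, r, s, hr, hc⟩ := normalize F hF
  have e1 := to_normal a β B r s hr F hP hc ha ha9
  have hQ' : SemiConj F (X ^ 3 + C (-a) * X) := by
    rw [C_neg, neg_mul, ← sub_eq_add_neg]
    exact hQ
  have e2 := to_normal (-a) β B r s hr F hQ' hc (neg_ne_zero.2 ha) (by rwa [neg_sq])
  apply ha
  linear_combination (e1 - e2) / 2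

end Pool.Agent.Results.MP_c10dfe_an.NotTransitive
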